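import Pool.Agent.PW.StmtsA

set_option autoImplicit false

namespace Pool.Agent.PW.H41

open MvPolynomial
open Pool.Agent.RS (FF io)
open Pool.Agent.PW

theorem bad (hWwm : WwmStmt) (hFgm : FgmStmt) (hFgx : FgxStmt) (hFgz : FgzStmt)
    (hRrs : RrsStmt) : BadStmt := by
  intro E _ _ c0 N R c
  unfold BT
  rw [Submodule.span_le]
  rintro w ⟨H, b, hRR, hFG, hlen, hb, hrob, rfl⟩
  unfold Robust at hrob
  push Not at hrob
  obtain ⟨p, hp, hp0, hpc⟩ := hrob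
  obtain ⟨-, m2, -, -, m5⟩ := hFgm E
  obtain ⟨-, r2, -, -, -, -⟩ := hRrs E (c + N)
  obtain ⟨S, hS⟩ := r2
  have hio : io E p ≠ 0 := by
    intro h
    apply hp0
    apply Pool.Agent.RS.io_injective
    rw [h, map_zero]
  have h1 : FG 0 p.vars (io E p) := by
    rw [(hFgz E p.vars (io E p)).1]
    refine ⟨p, 1, one_ne_zero, Finset.Subset.refl _, ?_, by rw [map_one, div_one]⟩
    rw [MvPolynomial.vars_one]
    exact Finset.empty_subset _
  have h2 : FG 0 p.vars (io E p)⁻¹ := (hFgz E p.vars (io E p)).2 h1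
  have h3 : FG N ∅ (io E p)⁻¹ := m2 _ N ∅ _ (by omega) (m5 0 p.vars _ h2)
  have h4 : FG (c + N) ∅ (H * (io E p)⁻¹) := hFgx E c N ∅ _ _ hFG h3
  have h5 : RR (c + N) H := (hRrs E c).2.2.2.1 (c + N) H (Nat.le_add_right _ _) hRR
  have h6 : RR (c + N) (io E p)⁻¹ :=
    (hRrs E N).2.2.2.1 (c + N) _ (Nat.le_add_left _ _) ((hRrs E N).2.2.2.2.2 p hp0 hpc.le)
  have h7 : RR (c + N) (H * (io E p)⁻¹) := by
    rw [← hS] at h5 h6 ⊢
    exact S.mul_mem h5 h6
  have h8 := (hWwm E c0).2.1 R (c + N) b p (H * (io E p)⁻¹) hlen hb hp h4 h7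
  have h9 : io E p * (H * (io E p)⁻¹) = H := by
    rw [mul_comm H, ← mul_assoc, mul_inv_cancel₀ hio, one_mul]
  rw [h9] at h8
  exact h8

end Pool.Agent.PW.H41
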